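import Mathlib

/-!
# Self-similar actions from virtual endomorphisms
-/

set_option autoImplicit false

namespace Run7.h477.SS

section
variable {G X : Type} [Group G] (s : G →* Equiv.Perm X) (c : G → X → G)

/-- the action on words -/
def act : List X → G → List X
  | [], _ => []
  | x :: w, g => s g x :: act w (c g x)

theorem act_one (h1 : ∀ x, c 1 x = 1) (w : List X) : act s c w 1 = w := by
  induction w with
  | nil => rfl
  | cons x w ih =>
    show s 1 x :: act s c w (c 1 x) = x :: w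
    rw [map_one, h1, ih]; rfl

theorem act_mul (h2 : ∀ g h x, c (g * h) x = c g (s h x) * c h x) (w : List X) :
    ∀ g h : G, act s c w (g * h) = act s c (act s c w h) g := by
  induction w with
  | nil => intro g h; rfl
  | cons x w ih =>
    intro g h
    show s (g * h) x :: act s c w (c (g * h) x) =
      s g (s h x) :: act s c (act s c w (c h x)) (c g (s h x))
    rw [h2, ih, map_mul]; rfl

/-- the action as a homomorphism -/
def rho (h1 : ∀ x, c 1 x = 1) (h2 : ∀ g h x, c (g * h) x = c g (s h x) * c h x) :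
    G →* Equiv.Perm (List X) :=
  MonoidHom.toHomPerm
    { toFun := fun g => ((fun w => act s c w g) : Function.End (List X))
      map_one' := by funext w; exact act_one s c h1 w
      map_mul' := fun g h => by funext w; exact act_mul s c h2 w g h }

theorem rho_cons (h1 : ∀ x, c 1 x = 1) (h2 : ∀ g h x, c (g * h) x = c g (s h x) * c h x)
    (g : G) (x : X) (w : List X) :
    rho s c h1 h2 g (x :: w) = s g x :: rho s c h1 h2 (c g x) w := rfl

end

/-- A virtual endomorphism with trivial core gives a faithful self-similar action. -/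
theorem selfsim {G : Type} [Group G] (H : Subgroup G) [H.FiniteIndex] (φ : H →* G) (hH : H ≠ ⊤)
    (hcore : ∀ N : Subgroup G, N.Normal → ∀ hN : N ≤ H,
      (∀ (y : G) (hy : y ∈ N), φ ⟨y, hN hy⟩ ∈ N) → N = ⊥) :
    ∃ (n : ℕ) (ρ : G →* Equiv.Perm (List (Fin n))), 2 ≤ n ∧ Function.Injective ρ ∧
      ∀ (g : G) (x : Fin n), ∃ (h : G) (y : Fin n), ∀ w : List (Fin n),
        ρ g (x :: w) = y :: ρ h w := by
  classical
  have : Finite (G ⧸ H) := Subgroup.finite_quotient_of_finiteIndex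
  obtain ⟨e⟩ : Nonempty ((G ⧸ H) ≃ Fin (Nat.card (G ⧸ H))) := ⟨Finite.equivFin _⟩
  obtain ⟨n, hn⟩ : ∃ n, n = Nat.card (G ⧸ H) := ⟨_, rfl⟩
  rw [← hn] at e
  have hn2 : 2 ≤ n := by
    rw [hn]
    have h1 : H.index ≠ 1 := fun h => hH (Subgroup.index_eq_one.1 h)
    have h2 : H.index ≠ 0 := Subgroup.FiniteIndex.index_ne_zero
    have h3 : H.index = Nat.card (G ⧸ H) := rfl
    omega
  -- the permutation action
  obtain ⟨s, hs⟩ : ∃ s : G →* Equiv.Perm (Fin n), ∀ g x, s g x = e (g • e.symm x) :=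
    ⟨{ toFun := fun g => (e.symm.trans (MulAction.toPerm g)).trans e
       map_one' := by ext x; simp
       map_mul' := fun g h => by ext x; simp [mul_smul] }, fun g x => rfl⟩
  -- the transversal
  obtain ⟨r, hr⟩ : ∃ r : Fin n → G, ∀ x, (r x : G ⧸ H) = e.symm x :=
    ⟨fun x => (e.symm x).out, fun x => QuotientGroup.out_eq' _⟩
  have hk : ∀ g x, (r (s g x))⁻¹ * (g * r x) ∈ H := by
    intro g x
    rw [← QuotientGroup.eq, hr, hs, Equiv.symm_apply_apply, ← hr x]
    rfl
  obtain ⟨c, hc⟩ : ∃ c : G → Fin n → G, ∀ g x, c g x = φ ⟨(r (s g x))⁻¹ * (g * r x), hk g x⟩ :=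
    ⟨_, fun _ _ => rfl⟩
  have h1 : ∀ x, c 1 x = 1 := by
    intro x
    have h3 : (⟨(r (s 1 x))⁻¹ * (1 * r x), hk 1 x⟩ : H) = 1 := by
      apply Subtype.ext
      show (r (s 1 x))⁻¹ * (1 * r x) = 1
      rw [map_one, one_mul]
      exact inv_mul_cancel _
    rw [hc, h3, map_one]
  have h2 : ∀ g h x, c (g * h) x = c g (s h x) * c h x := by
    intro g h x
    rw [hc, hc, hc, ← map_mul]
    congr 1
    apply Subtype.ext
    show (r (s (g * h) x))⁻¹ * (g * h * r x) = (r (s g (s h x)))⁻¹ * (g * r (s h x)) *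
      ((r (s h x))⁻¹ * (h * r x))
    rw [map_mul]
    show (r (s g (s h x)))⁻¹ * (g * h * r x) = _
    group
  refine ⟨n, rho s c h1 h2, hn2, ?_, fun g x => ⟨c g x, s g x, fun w => rho_cons s c h1 h2 g x w⟩⟩
  rw [← MonoidHom.ker_eq_bot_iff]
  -- the letter of the trivial coset
  obtain ⟨x0, hx0⟩ : ∃ x0 : Fin n, e.symm x0 = ((1 : G) : G ⧸ H) := ⟨e (1 : G), by simp⟩
  have hr0 : r x0 ∈ H := by
    have h3 := hr x0
    rw [hx0, eq_comm, QuotientGroup.eq, inv_one, one_mul] at h3
    exact h3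
  have hfix : ∀ g ∈ (rho s c h1 h2).ker, ∀ x, s g x = x ∧ c g x ∈ (rho s c h1 h2).ker := by
    intro g hg x
    rw [MonoidHom.mem_ker] at hg
    have h3 : ∀ w, s g x :: rho s c h1 h2 (c g x) w = x :: w := by
      intro w
      rw [← rho_cons, hg]; rfl
    refine ⟨(List.cons.inj (h3 [])).1, ?_⟩
    rw [MonoidHom.mem_ker]
    ext1 w
    exact (List.cons.inj (h3 w)).2
  have hN : (rho s c h1 h2).ker ≤ H := by
    intro g hg
    have h3 := (hfix g hg x0).1
    have h4 := hk g x0
    rw [h3] at h4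
    have h5 : g = r x0 * ((r x0)⁻¹ * (g * r x0)) * (r x0)⁻¹ := by group
    rw [h5]
    exact H.mul_mem (H.mul_mem hr0 h4) (H.inv_mem hr0)
  refine hcore _ inferInstance hN ?_
  intro y hy
  have hy' : r x0 * y * (r x0)⁻¹ ∈ (rho s c h1 h2).ker :=
    (inferInstance : (rho s c h1 h2).ker.Normal).conj_mem y hy (r x0)
  obtain ⟨h3, h4⟩ := hfix _ hy' x0
  rw [hc] at h4
  convert h4 using 2
  apply Subtype.ext
  show y = (r (s (r x0 * y * (r x0)⁻¹) x0))⁻¹ * (r x0 * y * (r x0)⁻¹ * r x0)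
  rw [h3]
  group

end Run7.h477.SS
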