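import Pool.Agent.Run7.h477.SS.Core

/-!
# `SL_3(ℤ)` is self-similar

The virtual endomorphism is `x ↦ d x d⁻¹`, `d = diag(2, 1, 1)`, on the subgroup of the `x` for which this
is an integral matrix.
-/

set_option autoImplicit false

namespace Run7.h477.SS

open Matrix

abbrev SZ := Matrix.SpecialLinearGroup (Fin 3) ℤ
abbrev SQ := Matrix.SpecialLinearGroup (Fin 3) ℚ

/-- the inclusion -/
def io : SZ →* SQ := Matrix.SpecialLinearGroup.map (Int.castRingHom ℚ)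

theorem io_apply (x : SZ) (i j : Fin 3) : (io x : Matrix (Fin 3) (Fin 3) ℚ) i j = (x i j : ℚ) := rfl

theorem io_inj : Function.Injective io := by
  intro x y h
  ext i j
  have h1 := congrArg (fun z : SQ => (z : Matrix (Fin 3) (Fin 3) ℚ) i j) h
  simp only [io_apply] at h1
  exact_mod_cast h1

/-- conjugation by `diag(2, 1, 1)` -/
def cj (x : SQ) : SQ :=
  ⟨Matrix.diagonal ![2, 1, 1] * (x : Matrix (Fin 3) (Fin 3) ℚ) * Matrix.diagonal ![1 / 2, 1, 1], by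
    rw [Matrix.det_mul, Matrix.det_mul, x.2, Matrix.det_diagonal, Matrix.det_diagonal,
      Fin.prod_univ_three, Fin.prod_univ_three]
    simp⟩

theorem cj_apply (x : SQ) (i j : Fin 3) : (cj x : Matrix (Fin 3) (Fin 3) ℚ) i j =
    (![2, 1, 1] : Fin 3 → ℚ) i * (x : Matrix (Fin 3) (Fin 3) ℚ) i j * (![1 / 2, 1, 1] : Fin 3 → ℚ) j := by
  have h : (cj x : Matrix (Fin 3) (Fin 3) ℚ) = Matrix.diagonal ![2, 1, 1] *
      (x : Matrix (Fin 3) (Fin 3) ℚ) * Matrix.diagonal ![1 / 2, 1, 1] := rfl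
  rw [h, Matrix.mul_diagonal, Matrix.diagonal_mul]

/-- conjugation as a homomorphism -/
def cjh : SQ →* SQ where
  toFun := cj
  map_one' := by
    ext i j
    rw [cj_apply]
    fin_cases i <;> fin_cases j <;> simp
  map_mul' := fun x y => by
    ext i j
    rw [cj_apply]
    simp only [Matrix.SpecialLinearGroup.coe_mul, Matrix.mul_apply, Fin.sum_univ_three, cj_apply]
    fin_cases i <;> fin_cases j <;> simp <;> ring

theorem cjh_apply (x : SQ) : cjh x = cj x := rfl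

/-- the domain of the virtual endomorphism -/
def HH : Subgroup SZ := (io.range).comap (cjh.comp io)

theorem mem_HH (x : SZ) : x ∈ HH ↔ ∃ y : SZ, io y = cj (io x) := Iff.rfl

/-- the virtual endomorphism -/
noncomputable def ve : HH →* SZ where
  toFun := fun x => ((mem_HH x.1).1 x.2).choose
  map_one' := by
    apply io_inj
    rw [((mem_HH _).1 (1 : HH).2).choose_spec]
    show cjh (io 1) = io 1
    rw [map_one, map_one]
  map_mul' := fun x y => by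
    apply io_inj
    rw [map_mul, ((mem_HH _).1 (x * y).2).choose_spec, ((mem_HH _).1 x.2).choose_spec,
      ((mem_HH _).1 y.2).choose_spec]
    show cjh (io (x.1 * y.1)) = cjh (io x.1) * cjh (io y.1)
    rw [map_mul, map_mul]

theorem io_ve (x : HH) : io (ve x) = cj (io x.1) := ((mem_HH x.1).1 x.2).choose_spec

theorem ve_10 (x : HH) : x.1 1 0 = 2 * ve x 1 0 := by
  have h1 := congrArg (fun z : SQ => (z : Matrix (Fin 3) (Fin 3) ℚ) 1 0) (io_ve x)
  simp only [io_apply, cj_apply] at h1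
  simp at h1
  have h2 : (x.1 1 0 : ℚ) = 2 * (ve x 1 0 : ℚ) := by rw [h1]; ring
  exact_mod_cast h2

theorem ve_20 (x : HH) : x.1 2 0 = 2 * ve x 2 0 := by
  have h1 := congrArg (fun z : SQ => (z : Matrix (Fin 3) (Fin 3) ℚ) 2 0) (io_ve x)
  simp only [io_apply, cj_apply] at h1
  simp at h1
  have h2 : (x.1 2 0 : ℚ) = 2 * (ve x 2 0 : ℚ) := by rw [h1]; ring
  exact_mod_cast h2

/-- integrality criterion -/
theorem mem_HH_of (x : SZ) (a b : ℤ) (ha : x 1 0 = 2 * a) (hb : x 2 0 = 2 * b) : x ∈ HH := by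
  rw [mem_HH]
  obtain ⟨M, hM⟩ : ∃ M : Matrix (Fin 3) (Fin 3) ℤ,
      M = !![x 0 0, 2 * x 0 1, 2 * x 0 2; a, x 1 1, x 1 2; b, x 2 1, x 2 2] := ⟨_, rfl⟩
  have hdet : M.det = 1 := by
    have h1 := x.2
    rw [Matrix.det_fin_three, ha, hb] at h1
    rw [hM, Matrix.det_fin_three]
    simp only [Matrix.cons_val', Matrix.cons_val_zero, Matrix.cons_val_one, Matrix.cons_val,
      Matrix.of_apply]
    linear_combination h1
  refine ⟨⟨M, hdet⟩, ?_⟩
  ext i j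
  show ((M i j : ℤ) : ℚ) = (cj (io x) : Matrix (Fin 3) (Fin 3) ℚ) i j
  rw [cj_apply, io_apply, hM]
  fin_cases i <;> fin_cases j <;> simp [ha, hb] <;> ring

instance : HH.FiniteIndex := by
  have h1 : (Matrix.SpecialLinearGroup.map (n := Fin 3) (Int.castRingHom (ZMod 2))).ker ≤ HH := by
    intro x hx
    rw [MonoidHom.mem_ker] at hx
    have h2 : ∀ i j, ((x i j : ℤ) : ZMod 2) = (1 : Matrix (Fin 3) (Fin 3) (ZMod 2)) i j := by
      intro i j
      have h3 := congrArg (fun z : Matrix.SpecialLinearGroup (Fin 3) (ZMod 2) =>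
        (z : Matrix (Fin 3) (Fin 3) (ZMod 2)) i j) hx
      exact h3
    have h3 : (2 : ℤ) ∣ x 1 0 := by
      have := h2 1 0
      rw [Matrix.one_apply_ne (by decide)] at this
      exact (ZMod.intCast_zmod_eq_zero_iff_dvd _ 2).1 this
    have h4 : (2 : ℤ) ∣ x 2 0 := by
      have := h2 2 0
      rw [Matrix.one_apply_ne (by decide)] at this
      exact (ZMod.intCast_zmod_eq_zero_iff_dvd _ 2).1 this
    obtain ⟨a, ha⟩ := h3
    obtain ⟨b, hb⟩ := h4
    exact mem_HH_of x a b ha hb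
  exact Subgroup.finiteIndex_of_le h1

/-- the elementary matrix `1 + e_{i0}` -/
def el (i : Fin 3) (h : i ≠ 0) : SZ :=
  ⟨Matrix.transvection i 0 1, Matrix.det_transvection_of_ne i 0 h 1⟩

theorem HH_ne_top : HH ≠ ⊤ := by
  intro h
  have h1 : el 1 (by decide) ∈ HH := by rw [h]; exact Subgroup.mem_top _
  have h2 := ve_10 ⟨_, h1⟩
  have h3 : (el 1 (by decide)) 1 0 = 1 := by
    show (Matrix.transvection (1 : Fin 3) 0 (1 : ℤ)) 1 0 = 1
    simp [Matrix.transvection]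
  have h4 : (1 : ℤ) = 2 * ve ⟨_, h1⟩ 1 0 := by rw [← h2]; exact h3.symm
  omega

theorem core_trivial (N : Subgroup SZ) (hN : N.Normal) (hNH : N ≤ HH)
    (hv : ∀ (y : SZ) (hy : y ∈ N), ve ⟨y, hNH hy⟩ ∈ N) : N = ⊥ := by
  have h1 : ∀ n : ℕ, ∀ y ∈ N, (2 : ℤ) ^ n ∣ y 1 0 ∧ (2 : ℤ) ^ n ∣ y 2 0 := by
    intro n
    induction n with
    | zero => intro y _; simp
    | succ n ih =>
      intro y hy
      obtain ⟨h3, h4⟩ := ih _ (hv y hy)
      have h5 := ve_10 ⟨y, hNH hy⟩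
      have h6 := ve_20 ⟨y, hNH hy⟩
      constructor
      · rw [pow_succ', show y 1 0 = 2 * ve ⟨y, hNH hy⟩ 1 0 from h5]
        exact mul_dvd_mul_left 2 h3
      · rw [pow_succ', show y 2 0 = 2 * ve ⟨y, hNH hy⟩ 2 0 from h6]
        exact mul_dvd_mul_left 2 h4
  have hz : ∀ a : ℤ, (∀ n : ℕ, (2 : ℤ) ^ n ∣ a) → a = 0 := by
    intro a ha
    by_contra hne
    obtain ⟨n, hn⟩ : ∃ n : ℕ, a.natAbs < 2 ^ n := ⟨a.natAbs, Nat.lt_two_pow_self⟩
    have h2 := Int.natAbs_dvd_natAbs.2 (ha n)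
    have h3 := Nat.le_of_dvd (Int.natAbs_pos.2 hne) h2
    rw [Int.natAbs_pow] at h3
    have : Int.natAbs 2 = 2 := rfl
    rw [this] at h3
    omega
  have h2 : ∀ y ∈ N, y 1 0 = 0 ∧ y 2 0 = 0 := fun y hy =>
    ⟨hz _ fun n => (h1 n y hy).1, hz _ fun n => (h1 n y hy).2⟩
  -- every vector is an eigenvector
  have h3 : ∀ y ∈ N, ∀ t : SZ, ∃ c : ℤ, ∀ i, (y * t) i 0 = t i 0 * c := by
    intro y hy t
    have h4 : t⁻¹ * y * t ∈ N := by
      have := hN.conj_mem y hy t⁻¹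
      rwa [inv_inv] at this
    obtain ⟨h5, h6⟩ := h2 _ h4
    refine ⟨(t⁻¹ * y * t) 0 0, fun i => ?_⟩
    have h7 : y * t = t * (t⁻¹ * y * t) := by group
    rw [h7]
    show ((t : Matrix (Fin 3) (Fin 3) ℤ) * ((t⁻¹ * y * t : SZ) : Matrix (Fin 3) (Fin 3) ℤ)) i 0 = _
    rw [Matrix.mul_apply, Fin.sum_univ_three]
    have h5' : ((t⁻¹ * y * t : SZ) : Matrix (Fin 3) (Fin 3) ℤ) 1 0 = 0 := h5
    have h6' : ((t⁻¹ * y * t : SZ) : Matrix (Fin 3) (Fin 3) ℤ) 2 0 = 0 := h6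
    rw [h5', h6', mul_zero, mul_zero, add_zero, add_zero]
  rw [eq_bot_iff]
  intro y hy
  rw [Subgroup.mem_bot]
  -- columns
  have hmul : ∀ t : SZ, ∀ i, (y * t) i 0 = y i 0 * t 0 0 + y i 1 * t 1 0 + y i 2 * t 2 0 := by
    intro t i
    show ((y : Matrix (Fin 3) (Fin 3) ℤ) * (t : Matrix (Fin 3) (Fin 3) ℤ)) i 0 = _
    rw [Matrix.mul_apply, Fin.sum_univ_three]
  have h8 : ∀ M : Matrix (Fin 3) (Fin 3) ℤ, M.det = 1 → ∃ c : ℤ, ∀ i,
      y i 0 * M 0 0 + y i 1 * M 1 0 + y i 2 * M 2 0 = M i 0 * c := by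
    intro M hM
    obtain ⟨c, hc⟩ := h3 y hy ⟨M, hM⟩
    exact ⟨c, fun i => (hmul ⟨M, hM⟩ i).symm.trans (hc i)⟩
  obtain ⟨c0, hc0⟩ := h8 1 (by simp)
  obtain ⟨c1, hc1⟩ := h8 !![0, 0, 1; 1, 0, 0; 0, 1, 0] (by rw [Matrix.det_fin_three]; simp)
  obtain ⟨c2, hc2⟩ := h8 !![0, 1, 0; 0, 0, 1; 1, 0, 0] (by rw [Matrix.det_fin_three]; simp)
  obtain ⟨c3, hc3⟩ := h8 !![1, 0, 0; 1, 1, 0; 0, 0, 1] (by rw [Matrix.det_fin_three]; simp)
  obtain ⟨c4, hc4⟩ := h8 !![1, 0, 0; 0, 1, 0; 1, 0, 1] (by rw [Matrix.det_fin_three]; simp)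
  have a1 := hc0 1
  have a2 := hc0 2
  have b0 := hc1 0
  have b2 := hc1 2
  have d0 := hc2 0
  have d1 := hc2 1
  have e0 := hc3 0
  have e1 := hc3 1
  have f0 := hc4 0
  have f2 := hc4 2
  simp at a1 a2 b0 b2 d0 d1 e0 e1 f0 f2
  have hdet := y.2
  rw [Matrix.det_fin_three, a1, a2, b0, b2, d0, d1] at hdet
  rw [b0] at e0
  rw [a1] at e1
  rw [d0] at f0
  rw [a2] at f2
  have g1 : y 1 1 = y 0 0 := by linarith
  have g2 : y 2 2 = y 0 0 := by linarith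
  rw [g1, g2] at hdet
  have g3 : y 0 0 = 1 := by
    have h9 : (y 0 0) ^ 3 = 1 := by linear_combination hdet
    have h10 : (y 0 0 - 1) * ((y 0 0) ^ 2 + y 0 0 + 1) = 0 := by linear_combination h9
    rcases mul_eq_zero.1 h10 with h | h
    · linarith
    · nlinarith [sq_nonneg (y 0 0), sq_nonneg (2 * y 0 0 + 1)]
  ext i j
  fin_cases i <;> fin_cases j
  · exact g3
  · exact b0
  · exact d0
  · exact a1
  · exact g1.trans g3
  · exact d1
  · exact a2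
  · exact b2
  · exact g2.trans g3

end Run7.h477.SS
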